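import Pool.Agent.Run7.h833.WnB

/-!
# Quadratic twists: the Lindelöf exponent near the centre and the zeros of the heat flow

`F` is a number field, `π` a cuspidal automorphic representation of `PGL_2(𝔸_F)`, and `D` runs through
the square-free integers of `F`.  The L-functions `L(s, π ⊗ χ_D)` are Euler products of degree
`n = 2 [F : ℚ]` over `ℚ`; `q_D` is the conductor of `π ⊗ χ_D` over `ℚ`, which is `≍ |D|²`.  Let
`ξ_D(s) = q_D^(s/2) Λ(s, π ⊗ χ_D)` and let `e^{τ 𝒟²} ξ_D` (`𝒟 = d/ds`) be its heat flow.  By de Bruijn's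
theorem the zeros of the heat flow move to the critical line as `τ` grows; near the centre the natural time
is `τ = κ / log q_D`.

* `Size T r a`: `L^{S_∞}(π ⊗ χ_D, 1/2 + r + i y) ≪ |D|^(a + ε)` for every `ε > 0`, uniformly for `y` in
  every bounded interval;
* `Few T κ`: at the time `κ / log q_D` the heat flow has only `o(log |D|)` zeros (with multiplicity) in
  `Re s ≥ 1/2 + δ`, `|Im s| ≤ R`, for all `δ > 0` and `R`;
* `OnLine T κ`: for each `κ' > κ` and each `R` all zeros with `|Im s| ≤ R` of the heat flow at the time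
  `κ' / log q_D` are on the critical line, for `|D|` large;
* `ZeroFree T κ`: for all `R`, `ε > 0` and `|D|` large there are no zeros of `Λ(s, π ⊗ χ_D)` in
  `Re s ≥ 1/2 + κ + ε`, `|Im s| ≤ R`.

Theorem.  (1) The Lindelöf bound near the centre, `Size T 0 0`, holds if and only if `Few T κ` for every
`κ > 0`.  (2) For every single `κ > 0`, `Few T κ` holds if and only if `Size T r (max(κ - r, 0)² / (2 κ))` for
all `0 ≤ r ≤ 1/2`; in particular it gives `L^{S_∞}(π ⊗ χ_D, 1/2) ≪ |D|^(κ/2 + ε)`.  (3) For `κ > 0`,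
`OnLine T κ` holds if and only if `Few T κ` and `ZeroFree T κ`.  (4) There is a subconvex bound near the
centre, `Size T 0 (1/2 - δ)` for some `δ > 0`, if and only if `OnLine T κ` for some `κ < 1`.

The proof is local: a general theorem for classes of pairs (L-function, height) (module
`Pool.Agent.Run7.h833.WnA`) compares the heat flow near a height with the size of the L-function in a window of
bounded length around this height; it uses the engine of the starting project `Pool.Agent.W169.HF`.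
-/

set_option autoImplicit false

open Complex NumberField
open scoped ComplexConjugate

namespace Pool.Agent.Results.MP_21d687_nt.HeatZerosOfTwists

/-- Analytic data of the L-function of degree `n` over `ℚ` of a unitary cuspidal automorphic representation
(over a number field): conductor `q` over `ℚ`, archimedean parameters `μ_j` with `Re μ_j ≥ -1/2`, local roots
`|α_j(p)| ≤ √p` of the Euler factors over `ℚ`, root number `w`, and the entire completed L-function `Λ`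
(gamma factors `∏ Γ_ℝ(s + μ_j)` times the Euler product for `Re s > 3/2`) with the functional equation, finite
order in vertical strips and no zeros in `Re s > 1` (all known: Hecke, Godement-Jacquet, Jacquet-Shalika). -/
structure CuspidalL (n : ℕ) where
  /-- the conductor -/
  q : ℕ
  /-- the archimedean parameters -/
  μ : Fin n → ℂ
  /-- the local roots -/
  α : Fin n → ℕ → ℂ
  /-- the root number -/
  w : ℂ
  /-- the completed L-function -/
  Λ : ℂ → ℂ
  q_pos : 0 < q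
  arch : ∀ j, -(1 / 2) ≤ (μ j).re
  roots : ∀ j, ∀ p : ℕ, p.Prime → ‖α j p‖ ≤ Real.sqrt p
  w_norm : ‖w‖ = 1
  entire : Differentiable ℂ Λ
  euler : ∀ s : ℂ, 3 / 2 < s.re → Λ s = (∏ j, Gammaℝ (s + μ j)) *
    ∏' p : Nat.Primes, ∏ j, (1 - α j p * (p : ℂ) ^ (-s))⁻¹
  functional : ∀ s : ℂ, Λ s = w * (q : ℂ) ^ (1 / 2 - s) * conj (Λ (1 - conj s))
  order : ∀ a b : ℝ, ∃ M, ∀ s : ℂ, a ≤ s.re → s.re ≤ b → ‖Λ s‖ ≤ Real.exp (M * (1 + |s.im|))
  ne_zero : ∀ s : ℂ, 1 < s.re → Λ s ≠ 0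

variable (F : Type) [Field F] [NumberField F]

/-- The square-free `D ∈ 𝓞_F`. -/
abbrev SqFree : Type := {D : 𝓞 F // D ≠ 0 ∧ Squarefree (Ideal.span {D})}

variable {F}

/-- `|D|_{S_∞} = |N_{F/ℚ}(D)|`. -/
noncomputable def absD (D : SqFree F) : ℝ := |((Algebra.norm ℤ D.1 : ℤ) : ℝ)|

variable (F)

/-- The L-functions of the twists `π ⊗ χ_D` of a cuspidal representation `π` of `PGL_2(𝔸_F)` by the quadratic
characters `χ_D`, `D` square-free: data of degree `2 [F : ℚ]`, with archimedean parameters in a bounded set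
(`χ_D` has finitely many archimedean components) and conductors `≍ |D|²` (at the prime ideals prime to `2` and
to the conductor of `π`, `χ_D` is ramified exactly at the divisors of `D`, tamely). -/
structure Twists where
  /-- the data of `π ⊗ χ_D` -/
  tw : SqFree F → CuspidalL (2 * Module.finrank ℚ F)
  arch_bdd : ∃ K : ℝ, ∀ D j, ‖(tw D).μ j‖ ≤ K
  cond : ∃ c C : ℝ, 0 < c ∧ ∀ D, c * absD D ^ 2 ≤ (tw D).q ∧ ((tw D).q : ℝ) ≤ C * absD D ^ 2

variable {F}

/-- The finite part `L^{S_∞}(π ⊗ χ_D, s) = Λ(s) / ∏ Γ_ℝ(s + μ_j)`. -/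
noncomputable def L (T : Twists F) (D : SqFree F) (s : ℂ) : ℂ :=
  (T.tw D).Λ s * ∏ j, (Gammaℝ (s + (T.tw D).μ j))⁻¹

/-- `ξ_D(s) = q_D^(s/2) Λ(s, π ⊗ χ_D)`. -/
noncomputable def xi (T : Twists F) (D : SqFree F) (s : ℂ) : ℂ := ((T.tw D).q : ℂ) ^ (s / 2) * (T.tw D).Λ s

/-- The heat flow `e^{τ 𝒟²} f` (`𝒟 = d/ds`) as a Gaussian average:
`π^(-1/2) ∫ exp (-v²) f(s + 2 √τ v) dv`. -/
noncomputable def heat (τ : ℝ) (f : ℂ → ℂ) (s : ℂ) : ℂ :=
  ((1 / Real.sqrt Real.pi : ℝ) : ℂ) *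
    ∫ v : ℝ, ((Real.exp (-v ^ 2) : ℝ) : ℂ) * f (s + ((2 * Real.sqrt τ * v : ℝ) : ℂ))

/-- The heat flow of `ξ_D` at the time `κ / log q_D`. -/
noncomputable def flow (T : Twists F) (κ : ℝ) (D : SqFree F) (s : ℂ) : ℂ :=
  heat (κ / Real.log (T.tw D).q) (xi T D) s

/-- `L^{S_∞}(π ⊗ χ_D, 1/2 + r + i y) ≪ |D|^(a + ε)` for every `ε > 0`, uniformly for `|y| ≤ R`, for every
`R`. -/
def Size (T : Twists F) (r a : ℝ) : Prop :=
  ∀ R ε : ℝ, 0 < ε → ∃ B : ℝ, ∀ (D : SqFree F) (y : ℝ), |y| ≤ R →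
    ‖L T D (1 / 2 + (r : ℂ) + (y : ℂ) * I)‖ ≤ B * absD D ^ (a + ε)

/-- At the time `κ / log q_D` the heat flow has `o(log |D|)` zeros (with multiplicity) in `Re s ≥ 1/2 + δ`,
`|Im s| ≤ R`, for all `δ > 0` and `R`. -/
def Few (T : Twists F) (κ : ℝ) : Prop :=
  ∀ R δ ε : ℝ, 0 < δ → 0 < ε → ∃ D₀ : ℝ, ∀ D : SqFree F, D₀ ≤ absD D → ∀ S : Finset ℂ,
    (∀ z ∈ S, flow T κ D z = 0 ∧ 1 / 2 + δ ≤ z.re ∧ |z.im| ≤ R) →
    ∑ z ∈ S, (analyticOrderNatAt (flow T κ D) z : ℝ) ≤ ε * Real.log (absD D)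

/-- For each `κ' > κ` and `R` all zeros with `|Im s| ≤ R` of the heat flow at the time `κ' / log q_D` are on the
critical line, for `|D|` large. -/
def OnLine (T : Twists F) (κ : ℝ) : Prop :=
  ∀ κ' R : ℝ, κ < κ' → ∃ D₀ : ℝ, ∀ D : SqFree F, D₀ ≤ absD D → ∀ s : ℂ, |s.im| ≤ R →
    flow T κ' D s = 0 → s.re = 1 / 2

/-- For all `R`, `ε > 0` and `|D|` large there are no zeros of `Λ(s, π ⊗ χ_D)` in `Re s ≥ 1/2 + κ + ε`,
`|Im s| ≤ R`. -/
def ZeroFree (T : Twists F) (κ : ℝ) : Prop :=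
  ∀ R ε : ℝ, 0 < ε → ∃ D₀ : ℝ, ∀ D : SqFree F, D₀ ≤ absD D → ∀ s : ℂ, |s.im| ≤ R →
    1 / 2 + κ + ε ≤ s.re → (T.tw D).Λ s ≠ 0

/-- `L^{S_∞}(π ⊗ χ_D, 1/2) ≪ |D|^(a + ε)` for every `ε > 0` (the bound of the problem is `a = 0`). -/
def Central (T : Twists F) (a : ℝ) : Prop :=
  ∀ ε : ℝ, 0 < ε → ∃ B : ℝ, ∀ D : SqFree F, ‖L T D (1 / 2)‖ ≤ B * absD D ^ (a + ε)

open Pool.Agent.W169.HF Run7.h833

lemma std {n : ℕ} (π : CuspidalL n) : Std (π.q : ℝ) (fun j => -π.μ j) π.α π.w π.Λ :=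
  ⟨{ one_le := by exact_mod_cast π.q_pos
     re_le := fun j => by
       have := π.arch j
       rw [neg_re]
       linarith
     norm_le := fun j p hp => by
       rw [← Real.sqrt_eq_rpow]
       exact π.roots j p hp
     norm_eq := π.w_norm
     entire := π.entire
     euler := fun s hs => by
       rw [π.euler s (by linarith)]
       simp only [sub_neg_eq_add]
     fe := fun s => by
       rw [π.functional s]
       norm_cast
     bdd := π.order }, π.ne_zero⟩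

lemma absD_one (D : SqFree F) : 1 ≤ absD D := by
  unfold absD
  have h1 : Algebra.norm ℤ D.1 ≠ 0 := Algebra.norm_ne_zero_iff.2 D.2.1
  have h2 : 1 ≤ |Algebra.norm ℤ D.1| := Int.one_le_abs h1
  exact_mod_cast h2

/-- the family -/
noncomputable def fam (T : Twists F) : WFam (SqFree F) (2 * Module.finrank ℚ F) where
  N D := (T.tw D).q
  μ D := fun j => -(T.tw D).μ j
  α D := (T.tw D).α
  e D := (T.tw D).w
  Λ D := (T.tw D).Λ
  std D := std (T.tw D)
  A D := absD D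
  A_one D := absD_one D
  w := 2
  w_pos := by norm_num
  b := |Real.log T.cond.choose| + |Real.log (max T.cond.choose_spec.choose 1)|
  b_nonneg := by positivity
  cmp D := by
    obtain ⟨h1, h2⟩ := T.cond.choose_spec.choose_spec
    obtain ⟨h3, h4⟩ := h2 D
    have hD := absD_one D
    have hD2 : 0 < absD D ^ 2 := by positivity
    have hq : (0 : ℝ) < (T.tw D).q := by exact_mod_cast (T.tw D).q_pos
    have hM : 0 < max T.cond.choose_spec.choose 1 := lt_max_of_lt_right one_pos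
    have h5 := Real.log_le_log (by positivity) h3
    rw [Real.log_mul h1.ne' hD2.ne', Real.log_pow] at h5
    have h6 : ((T.tw D).q : ℝ) ≤ max T.cond.choose_spec.choose 1 * absD D ^ 2 :=
      h4.trans (mul_le_mul_of_nonneg_right (le_max_left _ _) hD2.le)
    have h7 := Real.log_le_log hq h6
    rw [Real.log_mul hM.ne' hD2.ne', Real.log_pow] at h7
    push_cast at h5 h7
    have h8 := neg_abs_le (Real.log T.cond.choose)
    have h9 := le_abs_self (Real.log (max T.cond.choose_spec.choose 1))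
    have h10 := abs_nonneg (Real.log T.cond.choose)
    have h11 := abs_nonneg (Real.log (max T.cond.choose_spec.choose 1))
    rw [abs_le]
    constructor <;> linarith
  K := T.arch_bdd.choose
  arch D j := by
    rw [norm_neg]
    exact T.arch_bdd.choose_spec D j

lemma LL_L (T : Twists F) (D : SqFree F) (s : ℂ) : LL ((fam T).μ D) ((fam T).Λ D) s = L T D s := by
  unfold LL L fam
  simp only [sub_neg_eq_add]

lemma flow_eq (T : Twists F) (κ : ℝ) (D : SqFree F) : flow T κ D =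
    Pool.Agent.W169.HF.heat (κ / Real.log ((fam T).N D)) (XX ((fam T).N D) ((fam T).Λ D)) := by
  funext s
  unfold flow
  have e : xi T D = XX ((fam T).N D) ((fam T).Λ D) := by
    funext s
    unfold xi XX fam
    norm_cast
  rw [e]
  rfl

lemma size_iff (T : Twists F) (r a : ℝ) : Size T r a ↔ (fam T).Sz r a := by
  unfold Size WFam.Sz
  simp only [LL_L]
  rfl

lemma few_iff (T : Twists F) (κ : ℝ) : Few T κ ↔ (fam T).Few κ := by
  unfold Few WFam.Few Cnt
  simp only [flow_eq]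
  rfl

lemma on_iff (T : Twists F) (κ : ℝ) : OnLine T κ ↔ (fam T).Hor κ := by
  unfold OnLine WFam.Hor
  simp only [flow_eq]
  rfl

lemma zf_iff (T : Twists F) (κ : ℝ) : ZeroFree T κ ↔ (fam T).Free κ := Iff.rfl

lemma n_pos : 1 ≤ 2 * Module.finrank ℚ F := by
  have : 0 < Module.finrank ℚ F := Module.finrank_pos
  omega

lemma sz_w (T : Twists F) {r a : ℝ} (ha : 0 ≤ a) : Size T r a ↔ SErW (fam T).cls r (a / 2) := by
  rw [size_iff, (fam T).sz_iff ha]
  rfl

lemma ex_eq (κ r : ℝ) : max (κ - r) 0 ^ 2 / (2 * κ) / 2 = max (κ - r) 0 ^ 2 / (4 * κ) := by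
  rw [div_div]
  congr 1
  ring

lemma few_size (T : Twists F) {κ : ℝ} (hκ : 0 < κ) : Few T κ ↔
    ∀ r : ℝ, 0 ≤ r → r ≤ 1 / 2 → Size T r (max (κ - r) 0 ^ 2 / (2 * κ)) := by
  rw [few_iff, (fam T).few_iff n_pos hκ]
  refine forall_congr' fun r => forall_congr' fun _ => forall_congr' fun _ => ?_
  rw [sz_w T (by positivity), ex_eq]

lemma on_size (T : Twists F) {κ : ℝ} (hκ : 0 < κ) : OnLine T κ ↔ Few T κ ∧ ZeroFree T κ := by
  rw [on_iff, (fam T).hor_iff n_pos hκ, few_iff, (fam T).few_iff n_pos hκ, zf_iff]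
  exact and_comm

lemma size_mono (T : Twists F) {r a a' : ℝ} (h : a ≤ a') (hS : Size T r a) : Size T r a' := by
  intro R ε hε
  obtain ⟨B, HB⟩ := hS R ε hε
  refine ⟨max B 0, fun D y hy => (HB D y hy).trans ?_⟩
  have h1 := absD_one D
  refine (mul_le_mul_of_nonneg_right (le_max_left B 0) (Real.rpow_nonneg (by linarith) _)).trans ?_
  exact mul_le_mul_of_nonneg_left (Real.rpow_le_rpow_of_exponent_le h1 (by linarith)) (le_max_right _ _)

lemma size_central (T : Twists F) {a : ℝ} (h : Size T 0 a) : Central T a := by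
  intro ε hε
  obtain ⟨B, HB⟩ := h 0 ε hε
  refine ⟨B, fun D => ?_⟩
  have := HB D 0 (by simp)
  simpa using this

lemma lind_few (T : Twists F) : Size T 0 0 ↔ ∀ κ : ℝ, 0 < κ → Few T κ := by
  rw [sz_w T le_rfl, zero_div, w_lh_iff n_pos]
  constructor
  · intro h κ hκ
    exact (few_iff T κ).2 ((fam T).fzw_few hκ (h κ hκ))
  · intro h κ hκ
    exact (w_fz_iff hpx_all jen_all net_all tcz_all invx_all n_pos hκ).2
      (((fam T).few_iff n_pos hκ).1 ((few_iff T κ).1 (h κ hκ)))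

lemma on_mono (T : Twists F) {κ κ' : ℝ} (h : κ ≤ κ') (hO : OnLine T κ) : OnLine T κ' :=
  fun κ'' R h' => hO κ'' R (lt_of_le_of_lt h h')

lemma sub_on (T : Twists F) {δ : ℝ} (hδ : 0 ≤ δ) (hδ1 : δ ≤ 1 / 2) (h : Size T 0 (1 / 2 - δ)) :
    OnLine T (1 / (1 + 2 * δ)) := by
  rw [sz_w T (by linarith)] at h
  have hz : ZFW (fam T).cls (1 / 2) := by
    intro R ε hε
    refine ⟨0, fun N μ α e Λ s hP _ hs => ?_⟩
    exact hP.1.2 s (by linarith)
  have h1 := w_zf_se_sh n_pos (v := 1 / 2) (a := (1 / 2 - δ) / 2) (by norm_num) le_rfl (by linarith)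
    (by linarith) hz h
  have e : (1 / 2 : ℝ) ^ 2 / (1 / 2 - (1 / 2 - δ) / 2) = 1 / (1 + 2 * δ) := by
    have h2 : (0 : ℝ) < 1 / 2 - (1 / 2 - δ) / 2 := by linarith
    have h3 : (0 : ℝ) < 1 + 2 * δ := by linarith
    rw [div_eq_div_iff h2.ne' h3.ne']
    ring
  rw [e] at h1
  exact (on_iff T _).2 ((fam T).shw_hor (by positivity) h1)

/-- **Main theorem.** Let `F` be a number field and let `T` be the L-functions of the quadratic twists
`π ⊗ χ_D` of a cuspidal representation `π` of `PGL_2(𝔸_F)`.  (1) `Size T 0 0` (the Lindelöf bound for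
`L(1/2 + i y, π ⊗ χ_D)`, `|y| ≤ R`, for every `R`) holds if and only if `Few T κ` for all `κ > 0`.  (2) For
each `κ > 0`, `Few T κ` holds if and only if `Size T r (max(κ - r, 0)² / (2 κ))` for all `0 ≤ r ≤ 1/2`, and then
`L^{S_∞}(π ⊗ χ_D, 1/2) ≪ |D|^(κ/2 + ε)`.  (3) For each `κ > 0`, `OnLine T κ` if and only if `Few T κ` and
`ZeroFree T κ`.  (4) `Size T 0 (1/2 - δ)` for some `δ > 0` if and only if `OnLine T κ` for some `κ < 1`;
`Size T 0 (1/2 - δ)`, `0 ≤ δ ≤ 1/2`, implies `OnLine T (1 / (1 + 2 δ))`. -/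
theorem result (T : Twists F) :
    (Size T 0 0 ↔ ∀ κ : ℝ, 0 < κ → Few T κ) ∧
    (∀ κ : ℝ, 0 < κ →
      (Few T κ ↔ ∀ r : ℝ, 0 ≤ r → r ≤ 1 / 2 → Size T r (max (κ - r) 0 ^ 2 / (2 * κ))) ∧
      (Few T κ → Central T (κ / 2))) ∧
    (∀ κ : ℝ, 0 < κ → (OnLine T κ ↔ Few T κ ∧ ZeroFree T κ)) ∧
    ((∃ δ : ℝ, 0 < δ ∧ Size T 0 (1 / 2 - δ)) ↔ ∃ κ : ℝ, κ < 1 ∧ OnLine T κ) ∧
    (∀ δ : ℝ, 0 ≤ δ → δ ≤ 1 / 2 → Size T 0 (1 / 2 - δ) → OnLine T (1 / (1 + 2 * δ))) := by
  have key : ∀ κ : ℝ, 0 < κ → Few T κ → Size T 0 (κ / 2) := fun κ hκ h => by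
    have h1 := (few_size T hκ).1 h 0 le_rfl (by norm_num)
    have e : max (κ - 0) 0 ^ 2 / (2 * κ) = κ / 2 := by
      rw [sub_zero, max_eq_left hκ.le]
      field_simp
    rwa [e] at h1
  refine ⟨lind_few T, fun κ hκ => ⟨few_size T hκ, fun h => size_central T (key κ hκ h)⟩,
    fun κ hκ => on_size T hκ, ⟨?_, ?_⟩, fun δ hδ hδ1 h => sub_on T hδ hδ1 h⟩
  · rintro ⟨δ, hδ, h⟩
    obtain ⟨δ', hδ'⟩ : ∃ δ' : ℝ, δ' = min δ (1 / 2) := ⟨_, rfl⟩
    have h1 : 0 < δ' := by rw [hδ']; exact lt_min hδ (by norm_num)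
    have h2 : δ' ≤ δ := by rw [hδ']; exact min_le_left _ _
    have h3 : δ' ≤ 1 / 2 := by rw [hδ']; exact min_le_right _ _
    exact ⟨1 / (1 + 2 * δ'), by rw [div_lt_one (by linarith)]; linarith,
      sub_on T h1.le h3 (size_mono T (by linarith) h)⟩
  · rintro ⟨κ, hκ, h⟩
    obtain ⟨κ', hκ'⟩ : ∃ κ' : ℝ, κ' = max κ (1 / 2) := ⟨_, rfl⟩
    have h1 : κ' < 1 := by rw [hκ']; exact max_lt hκ (by norm_num)
    have h2 : 1 / 2 ≤ κ' := by rw [hκ']; exact le_max_right _ _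
    have h3 : κ ≤ κ' := by rw [hκ']; exact le_max_left _ _
    have h4 := key κ' (by linarith) ((on_size T (by linarith)).1 (on_mono T h3 h)).1
    exact ⟨(1 - κ') / 2, by linarith, size_mono T (by linarith) h4⟩

end Pool.Agent.Results.MP_21d687_nt.HeatZerosOfTwists
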