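import Pool.Agent.Results.MP_af11aa_nt.TotientOrbits

/-!
# Quadratic twists over ℚ: the Lindelöf bound near almost all orbits of Euler's function

`F` is a holomorphic cusp form of weight `3/2` with the coefficients `a(r)`, and `g(z) = Σ b(n) e(n z)`
a form of weight `2` which corresponds to `F` by Waldspurger's theorem: for the squarefree integers `t`
of a set `T` (a set of integers of fixed local square classes at the primes dividing the level)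
`|a(t)|² = c √t |L(1/2, π ⊗ χ_D)|`, `D = ± t`, where `π` is the representation of `PGL₂` over `ℚ` generated
by `g` (`Waldspurger`). The central value is given by Hecke's integral (`central`), `χ_D` is the Kronecker
symbol (`chi`).

(1) For almost all `m`, uniformly in all such `F`, `g`, `T`, `c`, `C` with `y^(3/4) |F| ≤ C`:
`|L(1/2, π ⊗ χ_D)| ≤ (C²/c) |D| ^ (2 / (K(m) + 1))` for ALL `t` in `T` of the form `t = b f(φ_k(m)) + h` with
`k, b, |h| ≤ K(m)`, `b ≥ 1`; here `K(m)` tends to infinity, so this is Lindelöf's bound.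

(2) For all windows around `b G(f(φ_k(m)))` the bound `|L(1/2, π ⊗ χ_D)| ≤ (C²/c) |D| ^ (2 η)`, if
`d (1 - 2 η) + κ < 1`.

The values `φ_k(m)` form a thin set and are taken with very large multiplicities; so this does not follow
from the mean value of the central values.
-/

set_option autoImplicit false

namespace Pool.Agent.Results.MP_21d687_nt.TotientOrbits

open Finset Filter Topology
open Pool.Agent.Results.MP_af11aa_nt.TotientOrbits (IsCuspForm Expansion SupNorm Moderate Expanding orb)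

/-- The discriminant of `ℚ(√D)` for a squarefree integer `D`. -/
def disc (D : ℤ) : ℤ := if D % 4 = 1 then D else 4 * D

/-- The Kronecker symbol `(Δ / n)` for a discriminant `Δ` and `n ≥ 1`: with `n = 2 ^ e n'`, `n'` odd, the
product of the Jacobi symbol `(Δ / n')` and `(Δ / 2) ^ e`, `(Δ / 2) = 0, 1, -1` for `Δ` even, `Δ ≡ 1`
and `Δ ≡ 5` modulo `8`. -/
def kronecker (Δ : ℤ) (n : ℕ) : ℤ :=
  (if Δ % 2 = 0 then 0 else if Δ % 8 = 1 then 1 else -1) ^ (n.factorization 2) *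
    jacobiSym Δ (n / 2 ^ (n.factorization 2))

/-- The quadratic character `χ_D` of the field `ℚ(√D)`, `D` squarefree. -/
def chi (D : ℤ) (n : ℕ) : ℤ := kronecker (disc D) n

/-- The central value `L(1/2, π ⊗ χ_D)` (unitary normalisation) for the form `g(z) = Σ b(n) e(n z)` of
weight `2`, by Hecke's integral `2 π ∫_0^∞ g_χ(i y) dy`, `g_χ(z) = Σ b(n) χ_D(n) e(n z)`. -/
noncomputable def central (b : ℕ → ℂ) (D : ℤ) : ℂ :=
  2 * Real.pi * ∫ y in Set.Ioi (0 : ℝ), ∑' n : ℕ, b n * (chi D n : ℂ) * Complex.exp (-(2 * Real.pi * n * y))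

/-- Waldspurger's relation between the coefficients `a(t)` of a form of weight `3/2` and the central values
of the twists of the form with the coefficients `b(n)` of weight `2`, for the integers `t` in `T`; `D = s t`
with a sign `s`. -/
def Waldspurger (a b : ℕ → ℂ) (T : Set ℕ) (s : ℤ) (c : ℝ) : Prop :=
  0 < c ∧ (s = 1 ∨ s = -1) ∧ ∀ t ∈ T, Squarefree t ∧ ‖a t‖ ^ 2 = c * Real.sqrt t * ‖central b (s * t)‖

theorem bound {a b : ℕ → ℂ} {T : Set ℕ} {s : ℤ} {c C η : ℝ} (hW : Waldspurger a b T s c) {t : ℕ} (ht : t ∈ T)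
    (ht1 : 1 ≤ t) (hC : 0 < C) (h : ‖a t‖ ≤ C * (t : ℝ) ^ ((1 : ℝ) / 4 + η)) :
    ‖central b (s * t)‖ ≤ C ^ 2 / c * (t : ℝ) ^ (2 * η) := by
  obtain ⟨hc, -, hrel⟩ := hW
  have h1 := (hrel t ht).2
  have ht0 : (0 : ℝ) < t := by exact_mod_cast ht1
  have h2 : ‖a t‖ ^ 2 ≤ (C * (t : ℝ) ^ ((1 : ℝ) / 4 + η)) ^ 2 := pow_le_pow_left₀ (norm_nonneg _) h 2
  have h3 : (C * (t : ℝ) ^ ((1 : ℝ) / 4 + η)) ^ 2 = C ^ 2 * (Real.sqrt t * (t : ℝ) ^ (2 * η)) := by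
    rw [mul_pow, ← Real.rpow_natCast ((t : ℝ) ^ ((1 : ℝ) / 4 + η)), ← Real.rpow_mul ht0.le, Real.sqrt_eq_rpow,
      ← Real.rpow_add ht0]
    congr 2
    push_cast
    ring
  rw [h1, h3] at h2
  have h4 : 0 < c * Real.sqrt t := mul_pos hc (Real.sqrt_pos.2 ht0)
  have h5 : c * Real.sqrt t * ‖central b (s * t)‖ ≤ c * Real.sqrt t * (C ^ 2 / c * (t : ℝ) ^ (2 * η)) := by
    refine h2.trans (le_of_eq ?_)
    field_simp
  exact le_of_mul_le_mul_left h5 h4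

theorem result :
    (∀ f : ℕ → ℕ, Moderate f → ∃ K : ℕ → ℕ, Tendsto K atTop atTop ∧ ∀ δ : ℝ, 0 < δ → ∃ M₀ : ℕ, ∀ M : ℕ, M₀ ≤ M →
      ∀ (N : ℕ) (χ : DirichletCharacter ℂ N) (F : ℂ → ℂ) (a : ℕ → ℂ) (C : ℝ), IsCuspForm N χ F → Expansion F a →
      0 < C → SupNorm F C → ∀ (b : ℕ → ℂ) (T : Set ℕ) (s : ℤ) (c : ℝ), Waldspurger a b T s c →
      ({m : ℕ | 1 ≤ m ∧ m ≤ M ∧ ¬ ∀ k ≤ K m, ∀ u : ℕ, 1 ≤ u → u ≤ K m → ∀ h : ℤ, |h| ≤ K m →
        ∀ t ∈ T, (t : ℤ) = u * orb f k m + h →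
          ‖central b (s * t)‖ ≤ C ^ 2 / c * (t : ℝ) ^ (2 / ((K m : ℝ) + 1))}.ncard : ℝ) ≤ δ * M) ∧
    (∀ η : ℝ, 0 < η → η < 1 / 2 → ∀ f : ℕ → ℕ, Moderate f → ∀ (G : ℕ → ℝ) (d : ℝ), Expanding G d →
      ∀ κ : ℝ, 0 ≤ κ → d * (1 - 2 * η) + κ < 1 →
      ∃ K : ℕ → ℕ, Tendsto K atTop atTop ∧ ∀ δ : ℝ, 0 < δ → ∃ M₀ : ℕ, ∀ M : ℕ, M₀ ≤ M →
      ∀ (N : ℕ) (χ : DirichletCharacter ℂ N) (F : ℂ → ℂ) (a : ℕ → ℂ) (C : ℝ), IsCuspForm N χ F → Expansion F a →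
      0 < C → SupNorm F C → ∀ (b : ℕ → ℂ) (T : Set ℕ) (s : ℤ) (c : ℝ), Waldspurger a b T s c →
      ({m : ℕ | 1 ≤ m ∧ m ≤ M ∧ ¬ ∀ k ≤ K m, ∀ u : ℕ, 1 ≤ u → u ≤ K m → ∀ t ∈ T,
        |(t : ℝ) - u * G (orb f k m)| ≤ K m * (orb f k m : ℝ) ^ κ →
          ‖central b (s * t)‖ ≤ C ^ 2 / c * (t : ℝ) ^ (2 * η)}.ncard : ℝ) ≤ δ * M) ∧
    (Moderate (fun m => m) ∧ Moderate Nat.totient ∧ Moderate (fun m => ∑ d ∈ m.divisors, d)) ∧
    ∀ α d : ℝ, 0 < α → 1 ≤ d → Expanding (fun v => α * (v : ℝ) ^ d) d := by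
  obtain ⟨h1, h2, -, h4, h5⟩ := Pool.Agent.Results.MP_af11aa_nt.TotientOrbits.result
  refine ⟨fun f hf => ?_, fun η hη hη1 f hf G d hG κ hκ h => ?_, h4, h5⟩
  · obtain ⟨K, hK, h⟩ := h1 f hf
    refine ⟨K, hK, fun δ hδ => ?_⟩
    obtain ⟨M₀, hM₀⟩ := h δ hδ
    refine ⟨M₀, fun M hM N χ F a C hF ha hC hs b T s c hW => ?_⟩
    refine le_trans (Nat.cast_le.2 (Set.ncard_le_ncard ?_ ?_)) (hM₀ M hM N χ F a C hF ha hC hs)
    · rintro m ⟨g1, g2, g3⟩
      refine ⟨g1, g2, fun g4 => g3 ?_⟩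
      intro k hk u hu1 hu v hv t ht he
      have ht1 : 1 ≤ t := Nat.one_le_iff_ne_zero.2 fun h0 => by
        have := (hW.2.2 t ht).1
        rw [h0] at this
        exact not_squarefree_zero this
      have g5 := g4 k hk u hu1 hu v hv t ht1 he
      have g6 := bound hW ht ht1 hC g5
      rwa [mul_one_div] at g6
    · exact (Set.finite_Iic M).subset fun m hm => hm.2.1
  · obtain ⟨K, hK, h⟩ := h2 η hη hη1 f hf G d hG κ hκ h
    refine ⟨K, hK, fun δ hδ => ?_⟩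
    obtain ⟨M₀, hM₀⟩ := h δ hδ
    refine ⟨M₀, fun M hM N χ F a C hF ha hC hs b T s c hW => ?_⟩
    refine le_trans (Nat.cast_le.2 (Set.ncard_le_ncard ?_ ?_)) (hM₀ M hM N χ F a C hF ha hC hs)
    · rintro m ⟨g1, g2, g3⟩
      refine ⟨g1, g2, fun g4 => g3 ?_⟩
      intro k hk u hu1 hu t ht he
      have ht1 : 1 ≤ t := Nat.one_le_iff_ne_zero.2 fun h0 => by
        have := (hW.2.2 t ht).1
        rw [h0] at this
        exact not_squarefree_zero this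
      exact bound hW ht ht1 hC (g4 k hk u hu1 hu t ht1 he)
    · exact (Set.finite_Iic M).subset fun m hm => hm.2.1

end Pool.Agent.Results.MP_21d687_nt.TotientOrbits
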